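import Mathlib

/-!
# The free alternative algebra and its weight spaces
-/

set_option autoImplicit false

namespace Pool.Agent.N890.ABG

open Module

universe u

section

variable (k : Type u) [Field k] (d : ℕ)

/-- The ideal of the free nonassociative (nonunital) algebra on `d` generators generated by all
`(a a) b - a (a b)` and all `(b a) a - b (a a)`. -/
noncomputable def altIdeal : Submodule k (FreeNonUnitalNonAssocAlgebra k (Fin d)) :=
  sInf {I | (∀ a b, (a * a) * b - a * (a * b) ∈ I) ∧ (∀ a b, (b * a) * a - b * (a * a) ∈ I) ∧
    (∀ a x, x ∈ I → a * x ∈ I) ∧ (∀ a x, x ∈ I → x * a ∈ I)}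

/-- The underlying space of the free alternative (nonunital) algebra on `d` generators. -/
abbrev FreeAlt : Type u := FreeNonUnitalNonAssocAlgebra k (Fin d) ⧸ altIdeal k d

variable {d}

/-- The multidegree of a nonassociative monomial. -/
def content : FreeMagma (Fin d) → (Fin d → ℕ)
  | .of i => Pi.single i 1
  | .mul a b => content a + content b

/-- The component of multidegree `μ` of the free alternative algebra: the span of the images of the
nonassociative monomials of multidegree `μ`. It is the weight space of weight `μ` for the diagonal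
matrices in `GL_d`. -/
noncomputable def altWeight (μ : Fin d → ℕ) : Submodule k (FreeAlt k d) :=
  Submodule.span k ((fun w => (altIdeal k d).mkQ (MonoidAlgebra.single w 1)) ''
    {w : FreeMagma (Fin d) | content w = μ})

end

section

variable {k : Type u} [Field k] {d : ℕ}

/-- The map to the free associative algebra. -/
noncomputable def toAssoc :
    FreeNonUnitalNonAssocAlgebra k (Fin d) →ₙₐ[k] MonoidAlgebra k (FreeMonoid (Fin d)) :=
  FreeNonUnitalNonAssocAlgebra.lift k fun i => MonoidAlgebra.single (FreeMonoid.of i) 1

/-- The associative word of a nonassociative monomial. -/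
def word : FreeMagma (Fin d) → FreeMonoid (Fin d)
  | .of i => FreeMonoid.of i
  | .mul a b => word a * word b

lemma toAssoc_single (w : FreeMagma (Fin d)) :
    toAssoc (k := k) (MonoidAlgebra.single w 1) = MonoidAlgebra.single (word w) 1 := by
  induction w with
  | ih1 i =>
    change toAssoc (k := k) (FreeNonUnitalNonAssocAlgebra.of k i) = _
    simp [toAssoc, word]
  | ih2 a b ha hb =>
    have h1 : (MonoidAlgebra.single (a * b) 1 : FreeNonUnitalNonAssocAlgebra k (Fin d)) =
        MonoidAlgebra.single a 1 * MonoidAlgebra.single b 1 := by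
      rw [MonoidAlgebra.single_mul_single, one_mul]
    rw [h1, map_mul, ha, hb, MonoidAlgebra.single_mul_single, one_mul]
    rfl

/-- The map to the free associative algebra, as a linear map. -/
noncomputable def toAssocLin :
    FreeNonUnitalNonAssocAlgebra k (Fin d) →ₗ[k] MonoidAlgebra k (FreeMonoid (Fin d)) where
  toFun := toAssoc
  map_add' := map_add _
  map_smul' := map_smul _

lemma altIdeal_le_ker : altIdeal k d ≤ LinearMap.ker (toAssocLin (k := k) (d := d)) := by
  apply sInf_le
  refine ⟨fun a b => ?_, fun a b => ?_, fun a x hx => ?_, fun a x hx => ?_⟩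
  · change toAssoc _ = 0
    rw [map_sub, map_mul, map_mul, map_mul, map_mul, mul_assoc, sub_self]
  · change toAssoc _ = 0
    rw [map_sub, map_mul, map_mul, map_mul, map_mul, mul_assoc, sub_self]
  · have h : toAssoc x = 0 := hx
    change toAssoc _ = 0
    rw [map_mul, h, mul_zero]
  · have h : toAssoc x = 0 := hx
    change toAssoc _ = 0
    rw [map_mul, h, zero_mul]

/-- The map from the free alternative algebra to the free associative algebra. -/
noncomputable def altToAssoc : FreeAlt k d →ₗ[k] MonoidAlgebra k (FreeMonoid (Fin d)) :=
  (altIdeal k d).liftQ toAssocLin altIdeal_le_ker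

lemma altToAssoc_mkQ (w : FreeMagma (Fin d)) :
    altToAssoc ((altIdeal k d).mkQ (MonoidAlgebra.single w 1)) =
      MonoidAlgebra.single (word w) 1 := by
  rw [altToAssoc, Submodule.mkQ_apply, Submodule.liftQ_apply]
  exact toAssoc_single w

/-! ### Finiteness -/

/-- The number of letters of a nonassociative monomial. -/
def len (w : FreeMagma (Fin d)) : ℕ := ∑ i, content w i

lemma len_of (i : Fin d) : len (FreeMagma.of i) = 1 := by
  have : content (FreeMagma.of i) = Pi.single i 1 := rfl
  rw [len, this]
  simp

lemma len_mul (a b : FreeMagma (Fin d)) : len (a * b) = len a + len b := by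
  have : content (a * b) = content a + content b := rfl
  rw [len, this, len, len, ← Finset.sum_add_distrib]
  rfl

lemma len_pos (w : FreeMagma (Fin d)) : 0 < len w := by
  induction w with
  | ih1 i => rw [len_of]; exact one_pos
  | ih2 a b ha hb => rw [len_mul]; omega

lemma finite_length (n : ℕ) : {w : FreeMagma (Fin d) | len w ≤ n}.Finite := by
  induction n with
  | zero =>
    convert Set.finite_empty
    ext w
    simp [(len_pos w).ne']
  | succ n ih =>
    refine ((Set.finite_range (FreeMagma.of (α := Fin d))).union
      (Set.Finite.image2 (fun a b => a * b) ih ih)).subset ?_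
    intro w hw
    change len w ≤ n + 1 at hw
    induction w with
    | ih1 i => exact Or.inl ⟨i, rfl⟩
    | ih2 a b _ _ =>
      rw [len_mul] at hw
      have h1 := len_pos a
      have h2 := len_pos b
      refine Or.inr ⟨a, ?_, b, ?_, rfl⟩
      · change len a ≤ n
        omega
      · change len b ≤ n
        omega

lemma finite_content (μ : Fin d → ℕ) : {w : FreeMagma (Fin d) | content w = μ}.Finite := by
  refine (finite_length (∑ i, μ i)).subset fun w hw => ?_
  change content w = μ at hw
  change ∑ i, content w i ≤ _
  rw [hw]

instance finite_altWeight (μ : Fin d → ℕ) : Module.Finite k (altWeight k μ) := by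
  rw [Module.Finite.iff_fg]
  exact Submodule.fg_span ((finite_content μ).image _)

/-! ### The lower bound -/

/-- A nonassociative monomial with given letters. -/
def mag : Fin d → List (Fin d) → FreeMagma (Fin d)
  | i, [] => FreeMagma.of i
  | i, j :: l => FreeMagma.of i * mag j l

lemma word_mag (i : Fin d) (l : List (Fin d)) : word (mag i l) = FreeMonoid.ofList (i :: l) := by
  induction l generalizing i with
  | nil => rfl
  | cons j l ih =>
    have : word (mag i (j :: l)) = FreeMonoid.of i * word (mag j l) := rfl
    rw [this, ih]
    rfl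

lemma content_mag (i : Fin d) (l : List (Fin d)) :
    content (mag i l) = ((i :: l).map fun j => (Pi.single j 1 : Fin d → ℕ)).sum := by
  induction l generalizing i with
  | nil => simp [mag, content]
  | cons j l ih =>
    have : content (mag i (j :: l)) = Pi.single i 1 + content (mag j l) := rfl
    rw [this, ih]
    simp

/-- The multidegree of a word. -/
def cont {n : ℕ} (w : Fin n → Fin d) : Fin d → ℕ := ∑ t, Pi.single (w t) 1

lemma sum_cont {n : ℕ} (w : Fin n → Fin d) : ∑ i, cont w i = n := by
  simp only [cont, Finset.sum_apply]
  rw [Finset.sum_comm]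
  simp

lemma card_le_altWeight {n : ℕ} (μ : Fin d → ℕ) :
    Fintype.card {w : Fin (n + 1) → Fin d // cont w = μ} ≤ finrank k (altWeight k μ) := by
  have hmem : ∀ w : {w : Fin (n + 1) → Fin d // cont w = μ},
      (altIdeal k d).mkQ (MonoidAlgebra.single
        (mag (w.1 0) (List.ofFn fun t => w.1 (Fin.succ t))) 1) ∈ altWeight k μ := by
    intro w
    refine Submodule.subset_span ⟨_, ?_, rfl⟩
    change content _ = μ
    refine Eq.trans ?_ w.2
    rw [content_mag, cont, ← List.ofFn_succ, List.map_ofFn, List.sum_ofFn]
    rfl
  let v : {w : Fin (n + 1) → Fin d // cont w = μ} → altWeight k μ := fun w => ⟨_, hmem w⟩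
  refine LinearIndependent.fintype_card_le_finrank (b := v) ?_
  refine LinearIndependent.of_comp (altToAssoc ∘ₗ (altWeight k μ).subtype) ?_
  have h1 : (altToAssoc ∘ₗ (altWeight k μ).subtype : _ → _) ∘ v = fun w =>
      (MonoidAlgebra.single (FreeMonoid.ofList (List.ofFn w.1)) 1 :
        MonoidAlgebra k (FreeMonoid (Fin d))) := by
    funext w
    change altToAssoc ((altIdeal k d).mkQ (MonoidAlgebra.single
        (mag (w.1 0) (List.ofFn fun t => w.1 (Fin.succ t))) 1)) = _
    rw [altToAssoc_mkQ, word_mag, ← List.ofFn_succ]
  rw [h1]
  refine LinearIndependent.of_comp (MonoidAlgebra.coeffLinearEquiv k).toLinearMap ?_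
  refine (Finsupp.linearIndependent_single_one k (FreeMonoid (Fin d))).comp
    (fun w : {w : Fin (n + 1) → Fin d // cont w = μ} => FreeMonoid.ofList (List.ofFn w.1)) ?_
  intro w w' h
  exact Subtype.ext (List.ofFn_injective (FreeMonoid.ofList.injective h))

/-- The sum of the dimensions of the components of total degree `n + 1` is at least
`d ^ (n + 1)`. -/
theorem pow_le_sum_altWeight (n : ℕ) :
    d ^ (n + 1) ≤ ∑ μ ∈ Finset.piAntidiag (Finset.univ : Finset (Fin d)) (n + 1),
      finrank k (altWeight k μ) := by
  have h1 : ((Finset.univ : Finset (Fin (n + 1) → Fin d)) : Set (Fin (n + 1) → Fin d)).MapsTo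
      cont (Finset.piAntidiag (Finset.univ : Finset (Fin d)) (n + 1)) := by
    intro w _
    rw [Finset.mem_coe, Finset.mem_piAntidiag]
    exact ⟨sum_cont w, fun i _ => Finset.mem_univ i⟩
  have h2 := Finset.card_eq_sum_card_fiberwise h1
  rw [Finset.card_univ, Fintype.card_fun, Fintype.card_fin, Fintype.card_fin] at h2
  rw [h2]
  refine Finset.sum_le_sum fun μ _ => ?_
  refine le_trans (le_of_eq ?_) (card_le_altWeight (k := k) (n := n) μ)
  rw [Fintype.card_subtype]

end

end Pool.Agent.N890.ABG
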