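import Pool.Agent.N890.ABG.Rec

/-!
# The predicted dimensions for `dim V = 4` in degrees at most nine
-/

set_option autoImplicit false

namespace Pool.Agent.N890.ABG

/-! ### The tables -/

/-- The coefficients of the components of `Φ` of degree at most eight. -/
def tab : ℕ → List (List ℤ)
  | 0 => [[1]]
  | 1 => [[-4, -4, 0],
   [-4, -8, -4],
   [0, -4, -4]]
  | 2 => [[6, 16, 6, 0, 0],
   [16, 32, 32, 16, 0],
   [6, 32, 38, 32, 6],
   [0, 16, 32, 32, 16],
   [0, 0, 6, 16, 6]]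
  | 3 => [[-4, -24, -24, -4, 0, 0, 0],
   [-24, -48, -48, -48, -24, 0, 0],
   [-24, -48, -52, -52, -48, -24, 0],
   [-4, -48, -52, -56, -52, -48, -4],
   [0, -24, -48, -52, -52, -48, -24],
   [0, 0, -24, -48, -48, -48, -24],
   [0, 0, 0, -4, -24, -24, -4]]
  | 4 => [[1, 16, 36, 16, 1, 0, 0, 0, 0],
   [16, 32, -48, -48, 32, 16, 0, 0, 0],
   [36, -48, -192, -256, -192, -48, 36, 0, 0],
   [16, -48, -256, -384, -384, -256, -48, 16, 0],
   [1, 32, -192, -384, -448, -384, -192, 32, 1],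
   [0, 16, -48, -256, -384, -384, -256, -48, 16],
   [0, 0, 36, -48, -192, -256, -192, -48, 36],
   [0, 0, 0, 16, 32, -48, -48, 32, 16],
   [0, 0, 0, 0, 1, 16, 36, 16, 1]]
  | 5 => [[0, -4, -24, -24, -4, 0, 0, 0, 0, 0, 0],
   [-4, -8, 172, 352, 172, -8, -4, 0, 0, 0, 0],
   [-24, 172, 668, 784, 784, 668, 172, -24, 0, 0, 0],
   [-24, 352, 784, 976, 976, 976, 784, 352, -24, 0, 0],
   [-4, 172, 784, 976, 1052, 1052, 976, 784, 172, -4, 0],
   [0, -8, 668, 976, 1052, 1128, 1052, 976, 668, -8, 0],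
   [0, -4, 172, 784, 976, 1052, 1052, 976, 784, 172, -4],
   [0, 0, -24, 352, 784, 976, 976, 976, 784, 352, -24],
   [0, 0, 0, -24, 172, 668, 784, 784, 668, 172, -24],
   [0, 0, 0, 0, -4, -8, 172, 352, 172, -8, -4],
   [0, 0, 0, 0, 0, 0, -4, -24, -24, -4, 0]]
  | 6 => [[0, 0, 6, 16, 6, 0, 0, 0, 0, 0, 0, 0, 0],
   [0, 0, -144, -528, -528, -144, 0, 0, 0, 0, 0, 0, 0],
   [6, -144, -818, -656, 4, -656, -818, -144, 6, 0, 0, 0, 0],
   [16, -528, -656, 736, 1536, 1536, 736, -656, -528, 16, 0, 0, 0],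
   [6, -528, 4, 1536, 2876, 3056, 2876, 1536, 4, -528, 6, 0, 0],
   [0, -144, -656, 1536, 3056, 3776, 3776, 3056, 1536, -656, -144, 0, 0],
   [0, 0, -818, 736, 2876, 3776, 4316, 3776, 2876, 736, -818, 0, 0],
   [0, 0, -144, -656, 1536, 3056, 3776, 3776, 3056, 1536, -656, -144, 0],
   [0, 0, 6, -528, 4, 1536, 2876, 3056, 2876, 1536, 4, -528, 6],
   [0, 0, 0, 16, -528, -656, 736, 1536, 1536, 736, -656, -528, 16],
   [0, 0, 0, 0, 6, -144, -818, -656, 4, -656, -818, -144, 6],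
   [0, 0, 0, 0, 0, 0, 0, -144, -528, -528, -144, 0, 0],
   [0, 0, 0, 0, 0, 0, 0, 0, 6, 16, 6, 0, 0]]
  | 7 => [[0, 0, 0, -4, -4, 0, 0, 0, 0, 0, 0, 0, 0, 0, 0],
   [0, 0, 40, 336, 592, 336, 40, 0, 0, 0, 0, 0, 0, 0, 0],
   [0, 40, 460, -68, -2672, -2672, -68, 460, 40, 0, 0, 0, 0, 0, 0],
   [-4, 336, -68, -4856, -7560, -6464, -7560, -4856, -68, 336, -4, 0, 0, 0, 0],
   [-4, 592, -2672, -7560, -7340, -5848, -5848, -7340, -7560, -2672, 592, -4, 0, 0, 0],
   [0, 336, -2672, -6464, -5848, -2640, -2640, -2640, -5848, -6464, -2672, 336, 0, 0, 0],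
   [0, 40, -68, -7560, -5848, -2640, -924, -924, -2640, -5848, -7560, -68, 40, 0, 0],
   [0, 0, 460, -4856, -7340, -2640, -924, 792, -924, -2640, -7340, -4856, 460, 0, 0],
   [0, 0, 40, -68, -7560, -5848, -2640, -924, -924, -2640, -5848, -7560, -68, 40, 0],
   [0, 0, 0, 336, -2672, -6464, -5848, -2640, -2640, -2640, -5848, -6464, -2672, 336, 0],
   [0, 0, 0, -4, 592, -2672, -7560, -7340, -5848, -5848, -7340, -7560, -2672, 592, -4],
   [0, 0, 0, 0, -4, 336, -68, -4856, -7560, -6464, -7560, -4856, -68, 336, -4],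
   [0, 0, 0, 0, 0, 0, 40, 460, -68, -2672, -2672, -68, 460, 40, 0],
   [0, 0, 0, 0, 0, 0, 0, 0, 40, 336, 592, 336, 40, 0, 0],
   [0, 0, 0, 0, 0, 0, 0, 0, 0, 0, -4, -4, 0, 0, 0]]
  | 8 => [[0, 0, 0, 0, 1, 0, 0, 0, 0, 0, 0, 0, 0, 0, 0, 0, 0],
   [0, 0, 0, -80, -304, -304, -80, 0, 0, 0, 0, 0, 0, 0, 0, 0, 0],
   [0, 0, -100, 336, 3872, 6912, 3872, 336, -100, 0, 0, 0, 0, 0, 0, 0, 0],
   [0, -80, 336, 6432, 10368, 1088, 1088, 10368, 6432, 336, -80, 0, 0, 0, 0, 0, 0],
   [1, -304, 3872, 10368, -5427, -22160, -22424, -22160, -5427, 10368, 3872, -304, 1, 0, 0, 0, 0],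
   [0, -304, 6912, 1088, -22160, -37312, -38336, -38336, -37312, -22160, 1088, 6912, -304, 0, 0, 0, 0],
   [0, -80, 3872, 1088, -22424, -38336, -36372, -40096, -36372, -38336, -22424, 1088, 3872, -80, 0, 0, 0],
   [0, 0, 336, 10368, -22160, -38336, -40096, -40832, -40832, -40096, -38336, -22160, 10368, 336, 0, 0, 0],
   [0, 0, -100, 6432, -5427, -37312, -36372, -40832, -37844, -40832, -36372, -37312, -5427, 6432, -100, 0, 0],
   [0, 0, 0, 336, 10368, -22160, -38336, -40096, -40832, -40832, -40096, -38336, -22160, 10368, 336, 0, 0],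
   [0, 0, 0, -80, 3872, 1088, -22424, -38336, -36372, -40096, -36372, -38336, -22424, 1088, 3872, -80, 0],
   [0, 0, 0, 0, -304, 6912, 1088, -22160, -37312, -38336, -38336, -37312, -22160, 1088, 6912, -304, 0],
   [0, 0, 0, 0, 1, -304, 3872, 10368, -5427, -22160, -22424, -22160, -5427, 10368, 3872, -304, 1],
   [0, 0, 0, 0, 0, 0, -80, 336, 6432, 10368, 1088, 1088, 10368, 6432, 336, -80, 0],
   [0, 0, 0, 0, 0, 0, 0, 0, -100, 336, 3872, 6912, 3872, 336, -100, 0, 0],
   [0, 0, 0, 0, 0, 0, 0, 0, 0, 0, -80, -304, -304, -80, 0, 0, 0],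
   [0, 0, 0, 0, 0, 0, 0, 0, 0, 0, 0, 0, 1, 0, 0, 0, 0]]
  | _ => []

/-- The coefficients of the components of `Φ` of degree at most eight. -/
def tU (n : ℕ) (i j : ℤ) : ℤ :=
  if i.natAbs ≤ n ∧ j.natAbs ≤ n then ((tab n).getD (i + n).toNat []).getD (j + n).toNat 0 else 0

/-- The values of `a`. -/
def tA (n : ℕ) : ℤ := [0, 4, 16, 68, 288, 1196, 4816, 18752, 70784, 261176].getD n 0

/-- The values of `b`. -/
def tB (n : ℕ) : ℤ := [0, 0, 6, 40, 201, 936, 4038, 16736, 66196, 252864].getD n 0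

/-- The check of the table of degree `n + 1`. -/
def check (n : ℕ) : Bool :=
  (List.range (2 * n + 3)).all fun i => (List.range (2 * n + 3)).all fun j =>
    rhs tA tB tU n ((i : ℤ) - (n + 1)) ((j : ℤ) - (n + 1)) ==
      ((n : ℤ) + 1) * tU (n + 1) ((i : ℤ) - (n + 1)) ((j : ℤ) - (n + 1))

set_option maxRecDepth 100000 in
lemma check_zero : check 0 = true := by decide +kernel
set_option maxRecDepth 100000 in
lemma check_one : check 1 = true := by decide +kernel
set_option maxRecDepth 100000 in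
lemma check_two : check 2 = true := by decide +kernel
set_option maxRecDepth 100000 in
lemma check_three : check 3 = true := by decide +kernel
set_option maxRecDepth 100000 in
lemma check_four : check 4 = true := by decide +kernel

set_option maxRecDepth 100000 in
lemma check_five : check 5 = true := by decide +kernel
set_option maxRecDepth 100000 in
lemma check_six : check 6 = true := by decide +kernel
set_option maxRecDepth 100000 in
lemma check_seven : check 7 = true := by decide +kernel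

/-- The check of the values of `a` and `b` in degree `n + 1`. -/
def checkAB (n : ℕ) : Bool :=
  (opM (rhs (trunc tA n) (trunc tB n) tU n) 0 0 == ((n : ℤ) + 1) * tB (n + 1)) &&
  (opM (rhs (trunc tA n) (trunc tB n) tU n) 1 1 ==
    ((n : ℤ) + 1) * (tA (n + 1) - if n = 0 then 4 else 0))

set_option maxRecDepth 100000 in
lemma checkAB_all : ((List.range 9).all checkAB) = true := by decide +kernel

lemma check_all (n : ℕ) (hn : n ≤ 7) : check n = true := by
  interval_cases n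
  · exact check_zero
  · exact check_one
  · exact check_two
  · exact check_three
  · exact check_four
  · exact check_five
  · exact check_six
  · exact check_seven

lemma check_spec (n : ℕ) (hn : n ≤ 7) (i j : ℤ) (hi : |i| ≤ n + 1) (hj : |j| ≤ n + 1) :
    rhs tA tB tU n i j = ((n : ℤ) + 1) * tU (n + 1) i j := by
  have h := check_all n hn
  rw [check, List.all_eq_true] at h
  rw [abs_le] at hi hj
  obtain ⟨a, ha⟩ := Int.eq_ofNat_of_zero_le (show 0 ≤ i + (n + 1) by linarith)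
  obtain ⟨b, hb⟩ := Int.eq_ofNat_of_zero_le (show 0 ≤ j + (n + 1) by linarith)
  have h1 := h a (by rw [List.mem_range]; omega)
  rw [List.all_eq_true] at h1
  have h2 := h1 b (by rw [List.mem_range]; omega)
  have h3 : (a : ℤ) - (n + 1) = i := by linarith
  have h4 : (b : ℤ) - (n + 1) = j := by linarith
  rw [h3, h4] at h2
  exact beq_iff_eq.mp h2

lemma checkAB_spec (n : ℕ) (hn : n ≤ 8) :
    opM (rhs (trunc tA n) (trunc tB n) tU n) 0 0 = ((n : ℤ) + 1) * tB (n + 1) ∧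
      opM (rhs (trunc tA n) (trunc tB n) tU n) 1 1 =
        ((n : ℤ) + 1) * (tA (n + 1) - if n = 0 then 4 else 0) := by
  have h := checkAB_all
  rw [List.all_eq_true] at h
  have h1 := h n (by rw [List.mem_range]; omega)
  rw [checkAB, Bool.and_eq_true] at h1
  exact ⟨beq_iff_eq.mp h1.1, beq_iff_eq.mp h1.2⟩

lemma tU_eq_zero (n : ℕ) (i j : ℤ) (h : (n : ℤ) < |i| ∨ (n : ℤ) < |j|) : tU n i j = 0 := by
  rw [tU, if_neg]
  rintro ⟨h1, h2⟩
  rcases h with h | h
  · rw [Int.abs_eq_natAbs] at h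
    omega
  · rw [Int.abs_eq_natAbs] at h
    omega

/-- The system of equations for the dimensions, in coordinates. -/
structure Sys (d : ℤ) (A B : ℕ → ℤ) (u : ℕ → ℤ → ℤ → ℤ) : Prop where
  zero : ∀ i j, u 0 i j = if i = 0 ∧ j = 0 then 1 else 0
  step : ∀ (n : ℕ) (i j : ℤ), ((n : ℤ) + 1) * u (n + 1) i j = rhs A B u n i j
  triv : ∀ n : ℕ, opM (u (n + 1)) 0 0 = 0
  adjo : ∀ n : ℕ, opM (u (n + 1)) 1 1 = if n = 0 then - d else 0

lemma Sys.values {A B : ℕ → ℤ} {u : ℕ → ℤ → ℤ → ℤ} (h : Sys 4 A B u) {n : ℕ} (hn : n ≤ 8)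
    (hA : ∀ m, m + 1 ≤ n → A (m + 1) = tA (m + 1)) (hB : ∀ m, m + 1 ≤ n → B (m + 1) = tB (m + 1))
    (hu : ∀ m ≤ n, u m = tU m) : A (n + 1) = tA (n + 1) ∧ B (n + 1) = tB (n + 1) := by
  have h1 : ∀ i j, ((n : ℤ) + 1) * u (n + 1) i j = rhs (trunc tA n) (trunc tB n) tU n i j -
      ((n + 1 : ℕ) : ℤ) * (A (n + 1) * opT (u 0) 1 i j + B (n + 1) * u 0 i j) := by
    intro i j
    rw [h.step, rhs_trunc]
    congr 1
    refine rhs_congr (fun m _ => ?_) (fun m _ => ?_) hu i j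
    · by_cases h2 : m + 1 ≤ n
      · rw [trunc_of_le _ h2, trunc_of_le _ h2, hA m h2]
      · rw [trunc, trunc, if_neg h2, if_neg h2]
    · by_cases h2 : m + 1 ≤ n
      · rw [trunc_of_le _ h2, trunc_of_le _ h2, hB m h2]
      · rw [trunc, trunc, if_neg h2, if_neg h2]
  obtain ⟨c0, c1⟩ := checkAB_spec n hn
  have hne : ((n : ℤ) + 1) ≠ 0 := by positivity
  have t0 := h.triv n
  have t1 := h.adjo n
  have hlin : ∀ a b : ℤ, ((n : ℤ) + 1) * opM (u (n + 1)) a b =
      opM (rhs (trunc tA n) (trunc tB n) tU n) a b -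
        ((n : ℤ) + 1) * (A (n + 1) * opM (opT (u 0) 1) a b + B (n + 1) * opM (u 0) a b) := by
    intro a b
    simp only [opM]
    have e1 := h1 a b
    have e2 := h1 (a + 1) b
    have e3 := h1 a (b + 1)
    have e4 := h1 (a + 2) (b + 1)
    have e5 := h1 (a + 1) (b + 2)
    have e6 := h1 (a + 2) (b + 2)
    push_cast at e1 e2 e3 e4 e5 e6 ⊢
    linear_combination e1 - e2 - e3 + e4 + e5 - e6
  have l0 := hlin 0 0
  have l1 := hlin 1 1
  rw [t0, c0] at l0
  rw [t1, c1] at l1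
  have o1 : opM (opT (u 0) 1) 0 0 = 0 := by
    simp [opM, opT, h.zero]
  have o2 : opM (u 0) 0 0 = 1 := by
    simp [opM, h.zero]
  have o3 : opM (opT (u 0) 1) 1 1 = 1 := by
    simp [opM, opT, h.zero]
  have o4 : opM (u 0) 1 1 = 0 := by
    simp [opM, h.zero]
  rw [o1, o2] at l0
  rw [o3, o4] at l1
  constructor
  · have : ((n : ℤ) + 1) * (tA (n + 1) - A (n + 1)) = 0 := by
      split_ifs at l1 <;> linarith
    rcases mul_eq_zero.mp this with h3 | h3
    · exact absurd h3 hne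
    · linarith
  · have : ((n : ℤ) + 1) * (tB (n + 1) - B (n + 1)) = 0 := by linarith
    rcases mul_eq_zero.mp this with h3 | h3
    · exact absurd h3 hne
    · linarith

lemma Sys.all {A B : ℕ → ℤ} {u : ℕ → ℤ → ℤ → ℤ} (h : Sys 4 A B u) (n : ℕ) (hn : n ≤ 8) :
    (∀ m, m + 1 ≤ n → A (m + 1) = tA (m + 1)) ∧ (∀ m, m + 1 ≤ n → B (m + 1) = tB (m + 1)) ∧
      ∀ m ≤ n, u m = tU m := by
  induction n with
  | zero =>
    refine ⟨fun m hm => absurd hm (by omega), fun m hm => absurd hm (by omega), fun m hm => ?_⟩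
    obtain rfl : m = 0 := by omega
    funext i j
    rw [h.zero, tU]
    by_cases h1 : i = 0 ∧ j = 0
    · obtain ⟨rfl, rfl⟩ := h1
      simp [tab]
    · rw [if_neg h1, if_neg]
      rintro ⟨h2, h3⟩
      exact h1 ⟨by omega, by omega⟩
  | succ n ih =>
    obtain ⟨iA, iB, iu⟩ := ih (by omega)
    obtain ⟨vA, vB⟩ := h.values (by omega : n ≤ 8) iA iB iu
    have hA : ∀ m, m + 1 ≤ n + 1 → A (m + 1) = tA (m + 1) := by
      intro m hm
      rcases Nat.lt_or_ge (m + 1) (n + 1) with h1 | h1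
      · exact iA m (by omega)
      · obtain rfl : m = n := by omega
        exact vA
    have hB : ∀ m, m + 1 ≤ n + 1 → B (m + 1) = tB (m + 1) := by
      intro m hm
      rcases Nat.lt_or_ge (m + 1) (n + 1) with h1 | h1
      · exact iB m (by omega)
      · obtain rfl : m = n := by omega
        exact vB
    refine ⟨hA, hB, fun m hm => ?_⟩
    rcases Nat.lt_or_ge m (n + 1) with h1 | h1
    · exact iu m (by omega)
    · obtain rfl : m = n + 1 := by omega
      funext i j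
      by_cases h2 : |i| ≤ (n : ℤ) + 1 ∧ |j| ≤ (n : ℤ) + 1
      · have h3 := check_spec n (by omega) i j h2.1 h2.2
        have h4 := h.step n i j
        rw [rhs_congr (fun m hm => hA m (by omega)) (fun m hm => hB m (by omega)) iu, h3] at h4
        exact mul_left_cancel₀ (by positivity) h4
      · have h3 : ((n + 1 : ℕ) : ℤ) < |i| ∨ ((n + 1 : ℕ) : ℤ) < |j| := by
          rw [not_and_or, not_le, not_le] at h2
          push_cast
          exact h2
        rw [supp h.zero h.step (n + 1) i j h3, tU_eq_zero (n + 1) i j h3]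

/-- The predicted dimension in degree nine. -/
theorem Sys.nine {A B : ℕ → ℤ} {u : ℕ → ℤ → ℤ → ℤ} (h : Sys 4 A B u) : A 9 = 261176 := by
  obtain ⟨iA, iB, iu⟩ := h.all 8 le_rfl
  exact (h.values (n := 8) le_rfl iA iB iu).1

end Pool.Agent.N890.ABG
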