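import Pool.Agent.N890.ABG.Lam
import Pool.Agent.N890.ABG.Alt

/-!
# The classes `a(V)` and `b(V)` and the class of the free alternative algebra
-/

set_option autoImplicit false

namespace Pool.Agent.N890.ABG

open PowerSeries Module

universe u

/-- The weight lattice of `GL_d` (of the group of diagonal matrices). -/
abbrev GLWt (d : ℕ) : Type := Fin d → ℤ

/-- The weight lattice of `PSL_3`, that is the root lattice of type `A_2`: the pair `(i, j)` stands
for `i α₁ + j α₂`. -/
abbrev RootLat : Type := ℤ × ℤ

/-- The embedding of classes over `GL_d` into classes over `GL_d × PSL_3`. -/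
noncomputable def emb (d : ℕ) : Ch (GLWt d) →+* Ch (GLWt d × RootLat) :=
  AddMonoidAlgebra.mapDomainRingHom ℤ (AddMonoidHom.inl (GLWt d) RootLat)

/-- The character of the adjoint module `L(α₁ + α₂)` of `PSL_3`. -/
noncomputable def adj (d : ℕ) : Ch (GLWt d × RootLat) :=
  2 + ex (0, (1, 0)) + ex (0, (0, 1)) + ex (0, (1, 1)) + ex (0, (-1, 0)) + ex (0, (0, -1)) +
    ex (0, (-1, -1))

/-- The Weyl denominator of `PSL_3`, the product of all `1 - e^{-α}` over the positive roots. -/
noncomputable def weyl (d : ℕ) : Ch (GLWt d × RootLat) :=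
  (1 - ex (0, (-1, 0))) * (1 - ex (0, (0, -1))) * (1 - ex (0, (-1, -1)))

/-- The coefficient of `e^l`, for a weight `l` of `PSL_3`; it is a character over `GL_d`. -/
noncomputable def slice {d : ℕ} (l : RootLat) (x : Ch (GLWt d × RootLat)) : Ch (GLWt d) :=
  AddMonoidAlgebra.ofCoeff (x.coeff.comapDomain (fun p => (p, l))
    (fun _ _ _ _ h => (Prod.mk.injEq _ _ _ _ ▸ h).1))

/-- The coefficient `[x : [L(l)]]` of the irreducible `PSL_3`-module `L(l)` of highest weight `l`
in a class `x` over `GL_d × PSL_3`, by the Weyl character formula. -/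
noncomputable def mult {d : ℕ} (l : RootLat) (x : Ch (GLWt d × RootLat)) : Ch (GLWt d) :=
  slice l (x * weyl d)

/-- The class `λ(a [L(α₁ + α₂)] + b [L(0)])`. -/
noncomputable def bigPhi {d : ℕ} (a b : GrCh (GLWt d)) : GrCh (GLWt d × RootLat) :=
  lam (PowerSeries.map (emb d) a * PowerSeries.C (adj d) + PowerSeries.map (emb d) b)

/-- The class `[V]` of the tautological module `V` of `GL_d`. -/
noncomputable def taut (d : ℕ) : Ch (GLWt d) := ∑ i : Fin d, ex (Pi.single i 1)

/-- The conditions which define the classes `a(V)` and `b(V)` for `dim V = d`: both have zero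
component of degree zero, and `Φ = λ(a(V) [L(α₁ + α₂)] + b(V) [L(0)])` satisfies
`[Φ : [L(0)]] = [k]` and `[Φ : [L(α₁ + α₂)]] = - [V]`. -/
def IsShangPair (d : ℕ) (a b : GrCh (GLWt d)) : Prop :=
  coeff 0 a = 0 ∧ coeff 0 b = 0 ∧
    (∀ n, mult (0, 0) (coeff n (bigPhi a b)) = if n = 0 then 1 else 0) ∧
    (∀ n, mult (1, 1) (coeff n (bigPhi a b)) = if n = 1 then - taut d else 0)

/-- The class of the free alternative algebra on a space of dimension `d`. -/
noncomputable def altClass (k : Type u) [Field k] (d : ℕ) : GrCh (GLWt d) :=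
  PowerSeries.mk fun n => ∑ μ ∈ Finset.piAntidiag (Finset.univ : Finset (Fin d)) n,
    AddMonoidAlgebra.single (fun i => (μ i : ℤ)) (finrank k (altWeight k μ) : ℤ)

/-! ### Dimensions -/

/-- The dimension of a class over `GL_d`. -/
noncomputable def aug (d : ℕ) : Ch (GLWt d) →+* ℤ :=
  (AddMonoidAlgebra.lift ℤ ℤ (GLWt d) (1 : Multiplicative (GLWt d) →* ℤ)).toRingHom

lemma aug_single {d : ℕ} (p : GLWt d) (c : ℤ) : aug d (AddMonoidAlgebra.single p c) = c := by
  simp [aug]

/-- Forgetting the action of `GL_d`. -/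
noncomputable def forget (d : ℕ) : Ch (GLWt d × RootLat) →+* Ch RootLat :=
  AddMonoidAlgebra.mapDomainRingHom ℤ (AddMonoidHom.snd (GLWt d) RootLat)

lemma forget_single {d : ℕ} (p : GLWt d) (l : RootLat) (c : ℤ) :
    forget d (AddMonoidAlgebra.single (p, l) c) = AddMonoidAlgebra.single l c := by
  simp [forget]

lemma forget_ex {d : ℕ} (p : GLWt d) (l : RootLat) : forget d (ex (p, l)) = ex l :=
  forget_single p l 1

lemma emb_single {d : ℕ} (p : GLWt d) (c : ℤ) :
    emb d (AddMonoidAlgebra.single p c) = AddMonoidAlgebra.single (p, 0) c := by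
  simp [emb]

lemma forget_emb {d : ℕ} (x : Ch (GLWt d)) :
    forget d (emb d x) = AddMonoidAlgebra.single 0 (aug d x) := by
  induction x using AddMonoidAlgebra.induction_linear with
  | zero => simp
  | add x y hx hy => simp [hx, hy]
  | single p c => rw [aug_single, emb_single, forget_single]

lemma coeff_slice {d : ℕ} (l : RootLat) (x : Ch (GLWt d × RootLat)) (p : GLWt d) :
    (slice l x).coeff p = x.coeff (p, l) := rfl

lemma slice_add {d : ℕ} (l : RootLat) (x y : Ch (GLWt d × RootLat)) :
    slice l (x + y) = slice l x + slice l y := by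
  ext p
  rfl

lemma slice_zero {d : ℕ} (l : RootLat) : slice l (0 : Ch (GLWt d × RootLat)) = 0 := by
  ext p
  rfl

lemma aug_slice {d : ℕ} (l : RootLat) (x : Ch (GLWt d × RootLat)) :
    aug d (slice l x) = (forget d x).coeff l := by
  induction x using AddMonoidAlgebra.induction_linear with
  | zero => rw [slice_zero, map_zero, map_zero]; rfl
  | add x y hx hy => rw [slice_add, map_add, hx, hy, map_add]; rfl
  | single q c =>
    obtain ⟨p, m⟩ := q
    rw [forget_single]
    by_cases h : m = l
    · subst h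
      have h1 : slice m (AddMonoidAlgebra.single (p, m) c) = AddMonoidAlgebra.single p c := by
        ext p'
        rw [coeff_slice, AddMonoidAlgebra.coeff_single, AddMonoidAlgebra.coeff_single,
          Finsupp.single_apply, Finsupp.single_apply]
        by_cases h2 : p = p'
        · rw [if_pos h2, if_pos (by rw [h2])]
        · rw [if_neg h2, if_neg (fun h3 => h2 (Prod.ext_iff.mp h3).1)]
      rw [h1, aug_single, AddMonoidAlgebra.coeff_single, Finsupp.single_eq_same]
    · have h1 : slice l (AddMonoidAlgebra.single (p, m) c) = 0 := by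
        ext p'
        rw [coeff_slice, AddMonoidAlgebra.coeff_single, Finsupp.single_apply,
          if_neg (fun h3 => h (Prod.ext_iff.mp h3).2)]
        rfl
      rw [h1, map_zero, AddMonoidAlgebra.coeff_single, Finsupp.single_apply, if_neg h]

lemma forget_adams {d : ℕ} (k : ℕ) (x : Ch (GLWt d × RootLat)) :
    forget d (adams k x) = adams k (forget d x) := by
  induction x using AddMonoidAlgebra.induction_linear with
  | zero => simp
  | add x y hx hy => simp [hx, hy]
  | single q c =>
    obtain ⟨p, m⟩ := q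
    rw [adams_single, forget_single p m, adams_single]
    exact forget_single (k • p) (k • m) c

/-- The character of the adjoint module, over `PSL_3`. -/
noncomputable def adQ : Ch RootLat :=
  2 + ex (1, 0) + ex (0, 1) + ex (1, 1) + ex (-1, 0) + ex (0, -1) + ex (-1, -1)

lemma forget_adj (d : ℕ) : forget d (adj d) = adQ := by
  simp only [adj, adQ, map_add, forget_ex]
  rw [map_ofNat]

/-- The Weyl denominator, over `PSL_3`. -/
noncomputable def weylQ : Ch RootLat :=
  (1 - ex (-1, 0)) * (1 - ex (0, -1)) * (1 - ex (-1, -1))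

lemma forget_weyl (d : ℕ) : forget d (weyl d) = weylQ := by
  simp only [weyl, weylQ, map_mul, map_sub, map_one, forget_ex]

lemma aug_mult {d : ℕ} (l : RootLat) (x : Ch (GLWt d × RootLat)) :
    aug d (mult l x) = (forget d x * weylQ).coeff l := by
  rw [mult, aug_slice, map_mul, forget_weyl]

/-- Coefficients of products with the Weyl denominator. -/
lemma coeff_mul_weylQ (x : Ch RootLat) (i j : ℤ) :
    (x * weylQ).coeff (i, j) = x.coeff (i, j) - x.coeff (i + 1, j) - x.coeff (i, j + 1) +
      x.coeff (i + 2, j + 1) + x.coeff (i + 1, j + 2) - x.coeff (i + 2, j + 2) := by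
  have h : weylQ = 1 - ex (-1, 0) - ex (0, -1) + ex (-2, -1) + ex (-1, -2) - ex (-2, -2) := by
    rw [weylQ]
    have e1 : (ex ((-1, 0) : RootLat)) * ex (0, -1) = ex (-1, -1) := by
      rw [← ex_add]; rfl
    have e2 : (ex ((-1, 0) : RootLat)) * ex (-1, -1) = ex (-2, -1) := by
      rw [← ex_add]; rfl
    have e3 : (ex ((0, -1) : RootLat)) * ex (-1, -1) = ex (-1, -2) := by
      rw [← ex_add]; rfl
    have e4 : (ex ((-1, -1) : RootLat)) * ex (-1, -1) = ex (-2, -2) := by
      rw [← ex_add]; rfl
    linear_combination (1 - ex ((-1, -1) : RootLat)) * e1 + e2 + e3 - e4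
  have hc : ∀ (a b : ℤ), (x * ex (a, b)).coeff (i, j) = x.coeff (i - a, j - b) := by
    intro a b
    rw [ex, AddMonoidAlgebra.coeff_mul_single_eq_coeff_mul (i - a, j - b), mul_one]
    rintro ⟨u, v⟩ _
    simp only [Prod.mk_add_mk, Prod.mk.injEq]
    constructor
    · rintro ⟨rfl, rfl⟩
      constructor <;> ring
    · rintro ⟨rfl, rfl⟩
      constructor <;> ring
  rw [h]
  simp only [mul_sub, mul_add, mul_one, AddMonoidAlgebra.coeff_add, AddMonoidAlgebra.coeff_sub,
    Finsupp.add_apply, Finsupp.sub_apply, hc]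
  norm_num

end Pool.Agent.N890.ABG
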