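import Pool.Agent.N890.ABG.Defs

/-!
# The classes `a(V)` and `b(V)` exist and are unique
-/

set_option autoImplicit false

namespace Pool.Agent.N890.ABG

open PowerSeries

variable {d : ℕ}

lemma coeff_mul_ex' (x : Ch (GLWt d × RootLat)) (a b i j : ℤ) (p : GLWt d) :
    (x * ex (0, (a, b))).coeff (p, (i, j)) = x.coeff (p, (i - a, j - b)) := by
  rw [ex, AddMonoidAlgebra.coeff_mul_single_eq_coeff_mul (p, (i - a, j - b)), mul_one]
  rintro ⟨q, u, v⟩ _
  simp only [Prod.mk_add_mk, Prod.mk.injEq, add_zero]
  constructor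
  · rintro ⟨rfl, rfl, rfl⟩
    refine ⟨rfl, ?_, ?_⟩ <;> ring
  · rintro ⟨rfl, rfl, rfl⟩
    refine ⟨rfl, ?_, ?_⟩ <;> ring

lemma slice_mul_ex (x : Ch (GLWt d × RootLat)) (a b i j : ℤ) :
    slice (i, j) (x * ex (0, (a, b))) = slice (i - a, j - b) x := by
  ext p
  rw [coeff_slice, coeff_slice, coeff_mul_ex']

lemma slice_sub (l : RootLat) (x y : Ch (GLWt d × RootLat)) :
    slice l (x - y) = slice l x - slice l y := by
  ext p
  rfl

lemma mult_eq (i j : ℤ) (x : Ch (GLWt d × RootLat)) :
    mult (i, j) x = slice (i, j) x - slice (i + 1, j) x - slice (i, j + 1) x +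
      slice (i + 2, j + 1) x + slice (i + 1, j + 2) x - slice (i + 2, j + 2) x := by
  have h : weyl d = 1 - ex (0, (-1, 0)) - ex (0, (0, -1)) + ex (0, (-2, -1)) + ex (0, (-1, -2)) -
      ex (0, (-2, -2)) := by
    rw [weyl]
    have e1 : (ex ((0, (-1, 0)) : GLWt d × RootLat)) * ex (0, (0, -1)) = ex (0, (-1, -1)) := by
      rw [← ex_add]; simp
    have e2 : (ex ((0, (-1, 0)) : GLWt d × RootLat)) * ex (0, (-1, -1)) = ex (0, (-2, -1)) := by
      rw [← ex_add]; simp
    have e3 : (ex ((0, (0, -1)) : GLWt d × RootLat)) * ex (0, (-1, -1)) = ex (0, (-1, -2)) := by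
      rw [← ex_add]; simp
    have e4 : (ex ((0, (-1, -1)) : GLWt d × RootLat)) * ex (0, (-1, -1)) = ex (0, (-2, -2)) := by
      rw [← ex_add]; simp
    linear_combination (1 - ex ((0, (-1, -1)) : GLWt d × RootLat)) * e1 + e2 + e3 - e4
  rw [mult, h]
  simp only [mul_sub, mul_add, mul_one, slice_add, slice_sub, slice_mul_ex]
  norm_num

lemma slice_emb (x : Ch (GLWt d)) (i j : ℤ) :
    slice (i, j) (emb d x) = if (i, j) = ((0, 0) : ℤ × ℤ) then x else 0 := by
  induction x using AddMonoidAlgebra.induction_linear with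
  | zero => rw [map_zero, slice_zero]; split_ifs <;> rfl
  | add x y hx hy =>
    rw [map_add, slice_add, hx, hy]
    split_ifs
    · rfl
    · rw [add_zero]
  | single p c =>
    rw [emb_single]
    ext p'
    rw [coeff_slice, AddMonoidAlgebra.coeff_single, Finsupp.single_apply]
    by_cases h : (i, j) = ((0, 0) : ℤ × ℤ)
    · rw [if_pos h, AddMonoidAlgebra.coeff_single, Finsupp.single_apply, h]
      by_cases h2 : p = p'
      · rw [if_pos h2, if_pos (by rw [h2]; rfl)]
      · rw [if_neg h2, if_neg (fun h3 => h2 (Prod.ext_iff.mp h3).1)]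
    · rw [if_neg h, if_neg (fun h3 => h (Prod.ext_iff.mp h3).2.symm)]
      rfl

lemma slice_emb_adj (x : Ch (GLWt d)) (i j : ℤ) :
    slice (i, j) (emb d x * adj d) =
      slice (i, j) (emb d x) + slice (i, j) (emb d x) + slice (i - 1, j) (emb d x) +
      slice (i, j - 1) (emb d x) + slice (i - 1, j - 1) (emb d x) + slice (i + 1, j) (emb d x) +
      slice (i, j + 1) (emb d x) + slice (i + 1, j + 1) (emb d x) := by
  have h : emb d x * adj d = emb d x + emb d x + emb d x * ex (0, (1, 0)) +
      emb d x * ex (0, (0, 1)) + emb d x * ex (0, (1, 1)) + emb d x * ex (0, (-1, 0)) +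
      emb d x * ex (0, (0, -1)) + emb d x * ex (0, (-1, -1)) := by
    rw [adj]; ring
  rw [h]
  simp only [slice_add, slice_mul_ex, sub_neg_eq_add, sub_zero]

lemma mult_add (l : RootLat) (x y : Ch (GLWt d × RootLat)) :
    mult l (x + y) = mult l x + mult l y := by
  rw [mult, add_mul, slice_add]
  rfl

lemma mult_sub (l : RootLat) (x y : Ch (GLWt d × RootLat)) :
    mult l (x - y) = mult l x - mult l y := by
  rw [mult, sub_mul, slice_sub]
  rfl

lemma mult_triv (x y : Ch (GLWt d)) : mult (0, 0) (emb d x * adj d + emb d y) = y := by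
  rw [mult_add, mult_eq, mult_eq]
  simp only [slice_emb_adj, slice_emb, Prod.mk.injEq]
  norm_num

lemma mult_adj (x y : Ch (GLWt d)) : mult (1, 1) (emb d x * adj d + emb d y) = x := by
  rw [mult_add, mult_eq, mult_eq]
  simp only [slice_emb_adj, slice_emb, Prod.mk.injEq]
  norm_num

lemma lamPartial_congr {G : Type} [AddCommGroup G] {f g : GrCh G} {N : ℕ}
    (h : ∀ m < N, coeff (m + 1) f = coeff (m + 1) g) : lamPartial f N = lamPartial g N := by
  rw [lamPartial, lamPartial]
  refine Finset.prod_congr rfl fun m hm => ?_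
  rw [h m (Finset.mem_range.mp hm)]

/-- The class of the Lie algebra with the components `a ⊗ ad + b`. -/
noncomputable def bigF (a b : GrCh (GLWt d)) : GrCh (GLWt d × RootLat) :=
  PowerSeries.map (emb d) a * PowerSeries.C (adj d) + PowerSeries.map (emb d) b

lemma coeff_bigF (a b : GrCh (GLWt d)) (n : ℕ) :
    coeff n (bigF a b) = emb d (coeff n a) * adj d + emb d (coeff n b) := by
  rw [bigF, map_add, PowerSeries.coeff_mul_C, PowerSeries.coeff_map, PowerSeries.coeff_map]

lemma mult_bigPhi_triv (a b : GrCh (GLWt d)) (n : ℕ) :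
    mult (0, 0) (coeff (n + 1) (bigPhi a b)) =
      mult (0, 0) (coeff (n + 1) (lamPartial (bigF a b) n : GrCh (GLWt d × RootLat))) -
        coeff (n + 1) b := by
  change mult (0, 0) (coeff (n + 1) (lam (bigF a b))) = _
  rw [coeff_lam_succ, mult_sub, coeff_bigF, mult_triv]

lemma mult_bigPhi_adj (a b : GrCh (GLWt d)) (n : ℕ) :
    mult (1, 1) (coeff (n + 1) (bigPhi a b)) =
      mult (1, 1) (coeff (n + 1) (lamPartial (bigF a b) n : GrCh (GLWt d × RootLat))) -
        coeff (n + 1) a := by
  change mult (1, 1) (coeff (n + 1) (lam (bigF a b))) = _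
  rw [coeff_lam_succ, mult_sub, coeff_bigF, mult_adj]

/-- There is at most one pair. -/
theorem pair_unique {a b a' b' : GrCh (GLWt d)} (h : IsShangPair d a b)
    (h' : IsShangPair d a' b') : a = a' ∧ b = b' := by
  obtain ⟨ha, hb, ht, had⟩ := h
  obtain ⟨ha', hb', ht', had'⟩ := h'
  have key : ∀ n, coeff n a = coeff n a' ∧ coeff n b = coeff n b' := by
    intro n
    induction n using Nat.strong_induction_on with
    | _ n ih =>
      rcases n with _ | n
      · exact ⟨by rw [ha, ha'], by rw [hb, hb']⟩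
      · have hP : lamPartial (bigF a b) n = lamPartial (bigF a' b') n := by
          refine lamPartial_congr fun m hm => ?_
          rw [coeff_bigF, coeff_bigF, (ih (m + 1) (by omega)).1, (ih (m + 1) (by omega)).2]
        constructor
        · have h1 := had (n + 1)
          have h2 := had' (n + 1)
          rw [mult_bigPhi_adj] at h1 h2
          rw [hP] at h1
          rw [← h2] at h1
          exact sub_right_injective h1
        · have h1 := ht (n + 1)
          have h2 := ht' (n + 1)
          rw [mult_bigPhi_triv] at h1 h2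
          rw [hP] at h1
          rw [← h2] at h1
          exact sub_right_injective h1
  exact ⟨PowerSeries.ext fun n => (key n).1, PowerSeries.ext fun n => (key n).2⟩

/-- The components of the pair, by recursion. -/
noncomputable def sol (d : ℕ) : ℕ → Ch (GLWt d) × Ch (GLWt d)
  | 0 => (0, 0)
  | n + 1 =>
    let f : GrCh (GLWt d × RootLat) := PowerSeries.mk fun m =>
      if h : m < n + 1 then emb d (sol d m).1 * adj d + emb d (sol d m).2 else 0
    (mult (1, 1) (coeff (n + 1) (lamPartial f n : GrCh (GLWt d × RootLat))) +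
      (if n = 0 then taut d else 0),
      mult (0, 0) (coeff (n + 1) (lamPartial f n : GrCh (GLWt d × RootLat))))

/-- There is a pair. -/
theorem pair_exists (d : ℕ) : ∃ a b : GrCh (GLWt d), IsShangPair d a b := by
  let a : GrCh (GLWt d) := PowerSeries.mk fun n => (sol d n).1
  let b : GrCh (GLWt d) := PowerSeries.mk fun n => (sol d n).2
  have hP : ∀ n, lamPartial (PowerSeries.mk fun m =>
      if h : m < n + 1 then emb d (sol d m).1 * adj d + emb d (sol d m).2 else 0) n =
      lamPartial (bigF a b) n := by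
    intro n
    refine lamPartial_congr fun m hm => ?_
    rw [coeff_bigF, PowerSeries.coeff_mk, PowerSeries.coeff_mk, PowerSeries.coeff_mk,
      dif_pos (by omega)]
  have ha : ∀ n, coeff (n + 1) a =
      mult (1, 1) (coeff (n + 1) (lamPartial (bigF a b) n : GrCh (GLWt d × RootLat))) +
        (if n = 0 then taut d else 0) := by
    intro n
    rw [PowerSeries.coeff_mk, sol, ← hP]
  have hb : ∀ n, coeff (n + 1) b =
      mult (0, 0) (coeff (n + 1) (lamPartial (bigF a b) n : GrCh (GLWt d × RootLat))) := by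
    intro n
    rw [PowerSeries.coeff_mk, sol, ← hP]
  have h0 : (coeff 0 (bigPhi a b)) = emb d 0 * adj d + emb d 1 := by
    rw [bigPhi, coeff_zero_lam, map_zero, zero_mul, zero_add, map_one]
  refine ⟨a, b, ?_, ?_, fun n => ?_, fun n => ?_⟩
  · rw [PowerSeries.coeff_mk, sol]
  · rw [PowerSeries.coeff_mk, sol]
  · rcases n with _ | n
    · rw [h0, mult_triv, if_pos rfl]
    · rw [mult_bigPhi_triv, hb, sub_self, if_neg (Nat.succ_ne_zero n)]
  · rcases n with _ | n
    · rw [h0, mult_adj, if_neg (by norm_num)]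
    · rw [mult_bigPhi_adj, ha]
      by_cases h : n = 0
      · subst h
        rw [if_pos rfl, if_pos rfl]
        ring
      · rw [if_neg h, if_neg (by omega)]
        ring

end Pool.Agent.N890.ABG
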