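import Mathlib

/-!
# The operation `λ` on classes of graded modules

Formal characters with weights in a lattice `G`, power series of them, and the multiplicative
operation `λ` with `λ([U]) = ∑ (-1)^k [Λ^k U]`.
-/

set_option autoImplicit false

namespace Pool.Agent.N890.ABG

open PowerSeries

/-- The ring of formal characters with weights in the group `G`. -/
abbrev Ch (G : Type) : Type := AddMonoidAlgebra ℤ G

/-- Classes of graded modules with finite-dimensional components: the coefficient of `X ^ n` is the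
formal character of the component of degree `n`. -/
abbrev GrCh (G : Type) [AddCommGroup G] : Type := PowerSeries (Ch G)

variable {G : Type} [AddCommGroup G]

/-- The formal exponential `e^g`. -/
noncomputable def ex (g : G) : Ch G := AddMonoidAlgebra.single g 1

lemma ex_add (g h : G) : ex (g + h) = ex g * ex h := by
  simp [ex, AddMonoidAlgebra.single_mul_single]

lemma ex_zero : ex (0 : G) = 1 := rfl

lemma isUnit_oneSub (n : ℕ) (g : G) :
    IsUnit (1 - monomial (n + 1) (ex g) : GrCh G) := by
  rw [PowerSeries.isUnit_iff_constantCoeff]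
  simp [← PowerSeries.coeff_zero_eq_constantCoeff, PowerSeries.coeff_monomial]

/-- The unit `1 - X ^ (n + 1) e^g`. -/
noncomputable def oneSub (n : ℕ) (g : G) : (GrCh G)ˣ := (isUnit_oneSub n g).unit

lemma coe_oneSub (n : ℕ) (g : G) : (oneSub n g : GrCh G) = 1 - monomial (n + 1) (ex g) := rfl

/-- The product of the factors `(1 - X ^ (n + 1) e^g) ^ c` over all `n < N` and all weights `g`,
where `c` is the multiplicity of the weight `g` in degree `n + 1` of `f`. -/
noncomputable def lamPartial (f : GrCh G) (N : ℕ) : (GrCh G)ˣ :=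
  ∏ n ∈ Finset.range N, ∏ g ∈ (coeff (n + 1) f).coeff.support,
    oneSub n g ^ (coeff (n + 1) f).coeff g

/-- The class `λ(f)`, for `f` with zero component of degree zero: the infinite product of the
factors `(1 - X ^ n e^g) ^ c` over all `n ≥ 1` and all weights `g`, where `c` is the multiplicity of
the weight `g` in degree `n` of `f`. -/
noncomputable def lam (f : GrCh G) : GrCh G :=
  PowerSeries.mk fun n => coeff n (lamPartial f n : GrCh G)

/-! ### The logarithmic derivative -/

/-- The logarithmic derivative. -/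
noncomputable def logDer : (GrCh G)ˣ →* Multiplicative (GrCh G) where
  toFun u := Multiplicative.ofAdd (derivative (Ch G) (u : GrCh G) * (↑u⁻¹ : GrCh G))
  map_one' := by simp
  map_mul' u v := by
    rw [← ofAdd_add]
    congr 1
    rw [Units.val_mul, Derivation.leibniz, mul_inv, Units.val_mul, smul_eq_mul, smul_eq_mul]
    have hu : (u : GrCh G) * (↑u⁻¹ : GrCh G) = 1 := Units.mul_inv u
    have hv : (v : GrCh G) * (↑v⁻¹ : GrCh G) = 1 := Units.mul_inv v
    linear_combination (derivative (Ch G) (v : GrCh G) * (↑v⁻¹ : GrCh G)) * hu +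
      (derivative (Ch G) (u : GrCh G) * (↑u⁻¹ : GrCh G)) * hv

/-- The coefficients of the logarithmic derivative of `1 - X ^ (n + 1) e^g`. -/
noncomputable def geo (n : ℕ) (g : G) (j : ℕ) : Ch G :=
  if (n + 1) ∣ (j + 1) then ex (((j + 1) / (n + 1)) • g) else 0

lemma coeff_mul_monomial' (φ : GrCh G) (n j : ℕ) (a : Ch G) :
    coeff j (φ * monomial n a) = if n ≤ j then coeff (j - n) φ * a else 0 := by
  have h : (monomial n a : GrCh G) = a • (X : GrCh G) ^ n := by
    ext1 m
    rw [PowerSeries.coeff_monomial, PowerSeries.coeff_smul, PowerSeries.coeff_X_pow]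
    split_ifs <;> simp
  rw [h, mul_smul_comm, PowerSeries.coeff_smul, PowerSeries.coeff_mul_X_pow', smul_eq_mul]
  split_ifs
  · rw [mul_comm]
  · rw [mul_zero]

lemma geo_mul (n : ℕ) (g : G) :
    PowerSeries.mk (geo n g) * (1 - monomial (n + 1) (ex g)) = monomial n (ex g) := by
  ext1 j
  rw [mul_sub, mul_one, map_sub, PowerSeries.coeff_mk, coeff_mul_monomial',
    PowerSeries.coeff_monomial]
  by_cases h : n + 1 ≤ j
  · rw [if_pos h, PowerSeries.coeff_mk, if_neg (by omega)]
    obtain ⟨i, rfl⟩ := Nat.exists_eq_add_of_le h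
    rw [Nat.add_sub_cancel_left]
    by_cases h2 : (n + 1) ∣ (i + 1)
    · have h3 : (n + 1) ∣ (n + 1 + i + 1) := by
        rw [add_assoc]
        exact (Nat.dvd_add_right (dvd_refl _)).mpr h2
      rw [geo, geo, if_pos h2, if_pos h3]
      have h4 : (n + 1 + i + 1) / (n + 1) = (i + 1) / (n + 1) + 1 := by
        rw [add_assoc, Nat.add_div_left _ (Nat.succ_pos n)]
      rw [h4, add_smul, one_smul, ex_add, sub_self]
    · have h3 : ¬ (n + 1) ∣ (n + 1 + i + 1) := by
        rw [add_assoc]
        intro h4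
        exact h2 ((Nat.dvd_add_right (dvd_refl _)).mp h4)
      rw [geo, geo, if_neg h2, if_neg h3, zero_mul, sub_zero]
  · rw [if_neg h, sub_zero]
    by_cases h2 : j = n
    · subst h2
      rw [if_pos rfl, geo, if_pos (dvd_refl _), Nat.div_self (Nat.succ_pos _), one_smul]
    · rw [if_neg h2, geo, if_neg]
      intro h3
      have := Nat.le_of_dvd (Nat.succ_pos _) h3
      omega

lemma logDer_oneSub (n : ℕ) (g : G) :
    Multiplicative.toAdd (logDer (oneSub n g)) =
      - ((n + 1 : ℕ) : ℤ) • PowerSeries.mk (geo n g) := by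
  have h1 : derivative (Ch G) (oneSub n g : GrCh G) =
      - ((n + 1 : ℕ) : ℤ) • monomial n (ex g) := by
    ext1 j
    rw [coe_oneSub, PowerSeries.coeff_derivative, map_sub, PowerSeries.coeff_monomial, map_zsmul,
      PowerSeries.coeff_monomial, PowerSeries.coeff_one, if_neg (Nat.succ_ne_zero j)]
    by_cases h : j = n
    · subst h
      rw [if_pos rfl, if_pos rfl]
      simp
      ring
    · rw [if_neg h, if_neg (by omega)]
      simp
  change derivative (Ch G) (oneSub n g : GrCh G) * (↑(oneSub n g)⁻¹ : GrCh G) = _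
  rw [h1, ← geo_mul, smul_mul_assoc, mul_assoc]
  have h2 : (1 - monomial (n + 1) (ex g) : GrCh G) * (↑(oneSub n g)⁻¹ : GrCh G) = 1 := by
    rw [← coe_oneSub]
    exact Units.mul_inv _
  rw [h2, mul_one]

/-- The Adams operation `e^g ↦ e^(kg)`. -/
noncomputable def adams (k : ℕ) : Ch G →+* Ch G :=
  AddMonoidAlgebra.mapDomainRingHom ℤ (nsmulAddMonoidHom k : G →+ G)

lemma adams_single (k : ℕ) (g : G) (c : ℤ) :
    adams k (AddMonoidAlgebra.single g c) = AddMonoidAlgebra.single (k • g) c := by
  simp [adams]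

/-- The coefficients of the logarithmic derivative of `λ(f)`, up to the sign. -/
noncomputable def psi (f : GrCh G) (j : ℕ) : Ch G :=
  ∑ n ∈ Finset.range (j + 1), if (n + 1) ∣ (j + 1) then
    ((n + 1 : ℕ) : ℤ) • adams ((j + 1) / (n + 1)) (coeff (n + 1) f) else 0

lemma sum_single (x : Ch G) : x = ∑ g ∈ x.coeff.support, x.coeff g • ex g := by
  conv_lhs => rw [← AddMonoidAlgebra.sum_coeff_single x]
  rw [Finsupp.sum]
  refine Finset.sum_congr rfl fun g _ => ?_
  rw [ex, AddMonoidAlgebra.smul_single, smul_eq_mul, mul_one]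

lemma coeff_logDer_lamPartial (f : GrCh G) (N j : ℕ) (h : j < N) :
    coeff j (Multiplicative.toAdd (logDer (lamPartial f N))) = - psi f j := by
  rw [lamPartial, map_prod, toAdd_prod, map_sum]
  have h1 : ∀ n ∈ Finset.range N, coeff j (Multiplicative.toAdd (logDer
      (∏ g ∈ (coeff (n + 1) f).coeff.support, oneSub n g ^ (coeff (n + 1) f).coeff g))) =
      - if (n + 1) ∣ (j + 1) then
        ((n + 1 : ℕ) : ℤ) • adams ((j + 1) / (n + 1)) (coeff (n + 1) f) else 0 := by
    intro n _
    rw [map_prod, toAdd_prod, map_sum]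
    have h2 : ∀ g ∈ (coeff (n + 1) f).coeff.support,
        coeff j (Multiplicative.toAdd (logDer (oneSub n g ^ (coeff (n + 1) f).coeff g))) =
        (coeff (n + 1) f).coeff g • (- ((n + 1 : ℕ) : ℤ) • geo n g j) := by
      intro g _
      rw [map_zpow, toAdd_zpow, logDer_oneSub, map_zsmul, map_zsmul, PowerSeries.coeff_mk]
    rw [Finset.sum_congr rfl h2]
    by_cases h3 : (n + 1) ∣ (j + 1)
    · rw [if_pos h3]
      conv_rhs => rw [sum_single (coeff (n + 1) f)]
      rw [map_sum, Finset.smul_sum, ← Finset.sum_neg_distrib]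
      refine Finset.sum_congr rfl fun g _ => ?_
      rw [geo, if_pos h3, map_zsmul, ex, ex, adams_single]
      rw [neg_smul, smul_neg, smul_comm]
    · rw [if_neg h3, neg_zero]
      refine Finset.sum_eq_zero fun g _ => ?_
      rw [geo, if_neg h3, smul_zero, smul_zero]
  rw [Finset.sum_congr rfl h1, Finset.sum_neg_distrib, psi]
  congr 1
  symm
  refine Finset.sum_subset (Finset.range_subset_range.mpr h) fun n _ hn => ?_
  rw [if_neg]
  intro h4
  have := Nat.le_of_dvd (Nat.succ_pos _) h4
  rw [Finset.mem_range] at hn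
  omega

/-- The units which are congruent to `1` modulo `X ^ (N + 1)`. -/
noncomputable def unitsOne (N : ℕ) : Subgroup (GrCh G)ˣ :=
  (Units.map (Ideal.Quotient.mk (Ideal.span {(X : GrCh G) ^ (N + 1)})).toMonoidHom).ker

lemma mem_unitsOne {N : ℕ} {u : (GrCh G)ˣ} :
    u ∈ unitsOne N ↔ (X : GrCh G) ^ (N + 1) ∣ (u : GrCh G) - 1 := by
  rw [unitsOne, MonoidHom.mem_ker, Units.ext_iff, Units.coe_map, Units.val_one,
    ← Ideal.mem_span_singleton, ← Ideal.Quotient.eq]
  rfl

lemma oneSub_mem (N : ℕ) (g : G) : oneSub N g ∈ unitsOne N := by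
  rw [mem_unitsOne, coe_oneSub]
  refine ⟨- PowerSeries.C (ex g), ?_⟩
  ext1 m
  rw [mul_neg, map_neg, PowerSeries.coeff_mul_C, PowerSeries.coeff_X_pow]
  simp only [sub_sub_cancel_left, map_neg, PowerSeries.coeff_monomial]
  split_ifs <;> simp

/-- The product of all factors of degree `n + 1`. -/
noncomputable def factorOf (f : GrCh G) (n : ℕ) : (GrCh G)ˣ :=
  ∏ g ∈ (coeff (n + 1) f).coeff.support, oneSub n g ^ (coeff (n + 1) f).coeff g

lemma factorOf_mem (f : GrCh G) (n : ℕ) : factorOf f n ∈ unitsOne n :=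
  Subgroup.prod_mem _ fun g _ => Subgroup.zpow_mem _ (oneSub_mem n g) _

lemma lamPartial_succ (f : GrCh G) (N : ℕ) :
    lamPartial f (N + 1) = lamPartial f N * factorOf f N := by
  rw [lamPartial, Finset.prod_range_succ]
  rfl

/-- The partial products stabilise. -/
lemma coeff_lamPartial_succ (f : GrCh G) (N m : ℕ) (h : m ≤ N) :
    coeff m (lamPartial f (N + 1) : GrCh G) = coeff m (lamPartial f N : GrCh G) := by
  obtain ⟨v, hv⟩ := mem_unitsOne.mp (factorOf_mem f N)
  have h1 : (factorOf f N : GrCh G) = 1 + X ^ (N + 1) * v := by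
    rw [← hv]; ring
  rw [lamPartial_succ, Units.val_mul, h1, mul_add, mul_one, map_add]
  have h2 : (lamPartial f N : GrCh G) * (X ^ (N + 1) * v) =
      ((lamPartial f N : GrCh G) * v) * X ^ (N + 1) := by ring
  rw [h2, PowerSeries.coeff_mul_X_pow', if_neg (by omega), add_zero]

lemma coeff_lamPartial (f : GrCh G) {N m : ℕ} (h : m ≤ N) :
    coeff m (lamPartial f N : GrCh G) = coeff m (lam f) := by
  induction N, h using Nat.le_induction with
  | base => rw [lam, PowerSeries.coeff_mk]
  | succ N hN ih => rw [coeff_lamPartial_succ f N m hN, ih]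

/-- The coefficient of degree `N + 1` of units congruent to `1` modulo `X ^ (N + 1)`. -/
noncomputable def lead (N : ℕ) : unitsOne (G := G) N →* Multiplicative (Ch G) where
  toFun u := Multiplicative.ofAdd (coeff (N + 1) ((u : (GrCh G)ˣ) : GrCh G))
  map_one' := by
    simp [PowerSeries.coeff_one]
  map_mul' u v := by
    rw [← ofAdd_add]
    congr 1
    obtain ⟨a, ha⟩ := mem_unitsOne.mp u.2
    obtain ⟨b, hb⟩ := mem_unitsOne.mp v.2
    have h1 : ((u : (GrCh G)ˣ) : GrCh G) = 1 + a * X ^ (N + 1) := by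
      rw [mul_comm, ← ha]; ring
    have h2 : ((v : (GrCh G)ˣ) : GrCh G) = 1 + b * X ^ (N + 1) := by
      rw [mul_comm, ← hb]; ring
    rw [Subgroup.coe_mul, Units.val_mul, h1, h2]
    have h3 : (1 + a * (X : GrCh G) ^ (N + 1)) * (1 + b * X ^ (N + 1)) =
        1 + a * X ^ (N + 1) + b * X ^ (N + 1) + (a * b * X ^ (N + 1)) * X ^ (N + 1) := by ring
    rw [h3]
    simp only [map_add, PowerSeries.coeff_mul_X_pow', PowerSeries.coeff_one, le_refl, if_true,
      Nat.succ_ne_zero, if_false, Nat.sub_self, zero_add]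
    rw [if_neg (by omega), add_zero]

lemma coeff_factorOf (f : GrCh G) (N : ℕ) :
    coeff (N + 1) (factorOf f N : GrCh G) = - coeff (N + 1) f := by
  have h1 : (⟨factorOf f N, factorOf_mem f N⟩ : unitsOne (G := G) N) =
      ∏ g ∈ (coeff (N + 1) f).coeff.support,
        (⟨oneSub N g, oneSub_mem N g⟩ : unitsOne (G := G) N) ^ (coeff (N + 1) f).coeff g := by
    apply Subtype.ext
    rw [Subgroup.val_finsetProd]
    rfl
  have h2 := congrArg (fun u => Multiplicative.toAdd (lead N u)) h1
  simp only [map_prod, toAdd_prod, map_zpow, toAdd_zpow] at h2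
  have h3 : Multiplicative.toAdd (lead N ⟨factorOf f N, factorOf_mem f N⟩) =
      coeff (N + 1) (factorOf f N : GrCh G) := rfl
  rw [h3] at h2
  rw [h2]
  conv_rhs => rw [sum_single (coeff (N + 1) f), ← Finset.sum_neg_distrib]
  refine Finset.sum_congr rfl fun g _ => ?_
  have h4 : Multiplicative.toAdd (lead N ⟨oneSub N g, oneSub_mem N g⟩) = - ex g := by
    change coeff (N + 1) (oneSub N g : GrCh G) = _
    rw [coe_oneSub, map_sub, PowerSeries.coeff_monomial, if_pos rfl, PowerSeries.coeff_one,
      if_neg (Nat.succ_ne_zero N), zero_sub]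
  rw [h4, smul_neg]

/-- The coefficient of degree `n + 1` of `λ(f)` in terms of the component of degree `n + 1` of `f`
and the partial product over the smaller degrees. -/
lemma coeff_lam_succ (f : GrCh G) (N : ℕ) :
    coeff (N + 1) (lam f) = coeff (N + 1) (lamPartial f N : GrCh G) - coeff (N + 1) f := by
  rw [← coeff_lamPartial f (le_refl (N + 1)), lamPartial_succ, Units.val_mul]
  obtain ⟨v, hv⟩ := mem_unitsOne.mp (factorOf_mem f N)
  have h1 : (factorOf f N : GrCh G) = 1 + v * X ^ (N + 1) := by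
    rw [mul_comm, ← hv]; ring
  have h2 : coeff (N + 1) (factorOf f N : GrCh G) = coeff 0 v := by
    rw [h1, map_add, PowerSeries.coeff_mul_X_pow', if_pos le_rfl, Nat.sub_self,
      PowerSeries.coeff_one, if_neg (Nat.succ_ne_zero N), zero_add]
  rw [coeff_factorOf] at h2
  rw [h1, mul_add, mul_one, map_add, ← mul_assoc, PowerSeries.coeff_mul_X_pow', if_pos le_rfl,
    Nat.sub_self, PowerSeries.coeff_zero_eq_constantCoeff_apply, map_mul,
    ← PowerSeries.coeff_zero_eq_constantCoeff_apply,
    ← PowerSeries.coeff_zero_eq_constantCoeff_apply, ← h2]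
  have h3 : coeff 0 (lamPartial f N : GrCh G) = 1 := by
    rw [coeff_lamPartial f (Nat.zero_le N), lam, PowerSeries.coeff_mk, lamPartial]
    simp
  rw [h3, one_mul, sub_eq_add_neg]

/-- The recursion for `λ(f)`. -/
theorem lam_rec (f : GrCh G) (N : ℕ) :
    ((N + 1 : ℕ) : ℤ) • coeff (N + 1) (lam f) =
      - ∑ p ∈ Finset.HasAntidiagonal.antidiagonal N, coeff p.1 (lam f) * psi f p.2 := by
  have h1 : derivative (Ch G) (lamPartial f (N + 1) : GrCh G) =
      (lamPartial f (N + 1) : GrCh G) * Multiplicative.toAdd (logDer (lamPartial f (N + 1))) := by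
    change _ = (lamPartial f (N + 1) : GrCh G) *
      (derivative (Ch G) (lamPartial f (N + 1) : GrCh G) *
        (↑(lamPartial f (N + 1))⁻¹ : GrCh G))
    rw [mul_comm, mul_assoc, Units.inv_mul, mul_one]
  have h2 := congrArg (coeff N) h1
  rw [PowerSeries.coeff_derivative, PowerSeries.coeff_mul, coeff_lamPartial f le_rfl] at h2
  have h3 : ∑ p ∈ Finset.HasAntidiagonal.antidiagonal N, coeff p.1 (lamPartial f (N + 1) : GrCh G) *
      coeff p.2 (Multiplicative.toAdd (logDer (lamPartial f (N + 1)))) =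
      - ∑ p ∈ Finset.HasAntidiagonal.antidiagonal N, coeff p.1 (lam f) * psi f p.2 := by
    rw [← Finset.sum_neg_distrib]
    refine Finset.sum_congr rfl fun p hp => ?_
    have h4 := Finset.HasAntidiagonal.mem_antidiagonal.mp hp
    rw [coeff_lamPartial f (by omega), coeff_logDer_lamPartial f (N + 1) p.2 (by omega), mul_neg]
  rw [h3] at h2
  rw [← h2, mul_comm]
  simp

lemma coeff_zero_lam (f : GrCh G) : coeff 0 (lam f) = 1 := by
  rw [lam, PowerSeries.coeff_mk, lamPartial]
  simp

end Pool.Agent.N890.ABG
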