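import Pool.Agent.N890.ABG.Comp

/-!
# The character formula for free alternative algebras fails
-/

set_option autoImplicit false

namespace Pool.Agent.N890.ABG

open PowerSeries Module

universe u

lemma adams_ex (k : ℕ) (i j : ℤ) : adams k (ex ((i, j) : RootLat)) = ex (k * i, k * j) := by
  rw [ex, adams_single, ex]
  congr 1

lemma coeff_mul_ex (x : Ch RootLat) (a b i j : ℤ) :
    (x * ex (a, b)).coeff (i, j) = x.coeff (i - a, j - b) := by
  rw [ex, AddMonoidAlgebra.coeff_mul_single_eq_coeff_mul (i - a, j - b), mul_one]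
  rintro ⟨u, v⟩ _
  simp only [Prod.mk_add_mk, Prod.mk.injEq]
  constructor
  · rintro ⟨rfl, rfl⟩
    constructor <;> ring
  · rintro ⟨rfl, rfl⟩
    constructor <;> ring

lemma coeff_mul_const (x : Ch RootLat) (c : ℤ) (i j : ℤ) :
    (x * AddMonoidAlgebra.single 0 c).coeff (i, j) = c * x.coeff (i, j) := by
  rw [AddMonoidAlgebra.coeff_mul_single_zero, mul_comm]

/-- The coefficients of a class over `PSL_3`. -/
noncomputable def cf (x : Ch RootLat) (i j : ℤ) : ℤ := x.coeff (i, j)

lemma cf_mul_adams (x : Ch RootLat) (k : ℕ) (α β i j : ℤ) :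
    cf (x * adams k (AddMonoidAlgebra.single 0 α * adQ + AddMonoidAlgebra.single 0 β)) i j =
      α * opT (cf x) k i j + β * cf x i j := by
  have h1 : adams k (adQ) = 2 + ex ((k : ℤ), (0 : ℤ)) + ex ((0 : ℤ), (k : ℤ)) +
      ex ((k : ℤ), (k : ℤ)) + ex (-(k : ℤ), (0 : ℤ)) + ex ((0 : ℤ), -(k : ℤ)) +
        ex (-(k : ℤ), -(k : ℤ)) := by
    rw [adQ]
    simp only [map_add, adams_ex, map_ofNat, mul_one, mul_zero, mul_neg]
  have h0 : ∀ c : ℤ, adams k (AddMonoidAlgebra.single (0 : RootLat) c) =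
      AddMonoidAlgebra.single 0 c := by
    intro c
    rw [adams_single, smul_zero]
  rw [map_add, map_mul, h1, h0, h0]
  have h2 : x * (AddMonoidAlgebra.single (0 : RootLat) α * (2 + ex ((k : ℤ), (0 : ℤ)) +
      ex ((0 : ℤ), (k : ℤ)) + ex ((k : ℤ), (k : ℤ)) + ex (-(k : ℤ), (0 : ℤ)) +
      ex ((0 : ℤ), -(k : ℤ)) + ex (-(k : ℤ), -(k : ℤ))) + AddMonoidAlgebra.single 0 β) =
      (x + x + x * ex ((k : ℤ), (0 : ℤ)) + x * ex ((0 : ℤ), (k : ℤ)) +
        x * ex ((k : ℤ), (k : ℤ)) + x * ex (-(k : ℤ), (0 : ℤ)) +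
        x * ex ((0 : ℤ), -(k : ℤ)) + x * ex (-(k : ℤ), -(k : ℤ))) *
        AddMonoidAlgebra.single (0 : RootLat) α + x * AddMonoidAlgebra.single 0 β := by
    ring
  rw [h2]
  simp only [cf, AddMonoidAlgebra.coeff_add, Finsupp.add_apply, coeff_mul_const, coeff_mul_ex,
    opT, sub_neg_eq_add, sub_zero]
  ring

lemma cf_zsmul (c : ℤ) (x : Ch RootLat) (i j : ℤ) : cf (c • x) i j = c * cf x i j := by
  rw [cf, AddMonoidAlgebra.coeff_smul, Finsupp.smul_apply, smul_eq_mul, cf]

lemma cf_neg (x : Ch RootLat) (i j : ℤ) : cf (-x) i j = - cf x i j := by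
  rw [cf, AddMonoidAlgebra.coeff_neg, Finsupp.neg_apply, cf]

lemma cf_zero (i j : ℤ) : cf 0 i j = 0 := rfl

lemma cf_sum {ι : Type*} (s : Finset ι) (f : ι → Ch RootLat) (i j : ℤ) :
    cf (∑ t ∈ s, f t) i j = ∑ t ∈ s, cf (f t) i j := by
  rw [cf, AddMonoidAlgebra.coeff_sum, Finsupp.finsetSum_apply]
  rfl

section

variable {d : ℕ} {a b : GrCh (GLWt d)}

/-- The classes over `PSL_3` of the components of `Φ`. -/
noncomputable def comp (a b : GrCh (GLWt d)) (n : ℕ) : Ch RootLat :=
  forget d (coeff n (bigPhi a b))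

lemma forget_coeff (n : ℕ) :
    forget d (coeff n (PowerSeries.map (emb d) a * PowerSeries.C (adj d) +
      PowerSeries.map (emb d) b)) =
      AddMonoidAlgebra.single 0 (aug d (coeff n a)) * adQ +
        AddMonoidAlgebra.single 0 (aug d (coeff n b)) := by
  rw [map_add, PowerSeries.coeff_mul_C, PowerSeries.coeff_map, PowerSeries.coeff_map, map_add,
    map_mul, forget_emb, forget_emb, forget_adj]

lemma sys_of_pair (h : IsShangPair d a b) :
    Sys d (fun n => aug d (coeff n a)) (fun n => aug d (coeff n b))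
      (fun n => cf (comp a b n)) := by
  obtain ⟨_, _, h1, h2⟩ := h
  have hM : ∀ (n : ℕ) (i j : ℤ), aug d (mult (i, j) (coeff n (bigPhi a b))) =
      opM (cf (comp a b n)) i j := by
    intro n i j
    rw [aug_mult, coeff_mul_weylQ]
    rfl
  refine ⟨fun i j => ?_, fun n i j => ?_, fun n => ?_, fun n => ?_⟩
  · rw [comp, bigPhi, coeff_zero_lam, map_one, cf, AddMonoidAlgebra.one_def,
      AddMonoidAlgebra.coeff_single, Finsupp.single_apply]
    by_cases h3 : i = 0 ∧ j = 0
    · rw [if_pos h3, if_pos (by rw [h3.1, h3.2]; rfl)]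
    · rw [if_neg h3, if_neg]
      intro h4
      exact h3 ⟨(Prod.ext_iff.mp h4).1.symm, (Prod.ext_iff.mp h4).2.symm⟩
  · have h3 := congrArg (fun x => cf (forget d x) i j)
      (lam_rec (PowerSeries.map (emb d) a * PowerSeries.C (adj d) + PowerSeries.map (emb d) b) n)
    rw [map_zsmul, map_neg, map_sum, cf_zsmul, cf_neg, cf_sum] at h3
    have h4 : ((n : ℤ) + 1) * cf (comp a b (n + 1)) i j =
      ((n + 1 : ℕ) : ℤ) * cf (forget d (coeff (n + 1) (lam (PowerSeries.map (emb d) a *
        PowerSeries.C (adj d) + PowerSeries.map (emb d) b)))) i j := by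
      push_cast
      rfl
    rw [h4, h3, rhs, sumR_eq]
    congr 1
    rw [Finset.Nat.sum_antidiagonal_eq_sum_range_succ (f := fun p q => cf (forget d
      (coeff p (lam (PowerSeries.map (emb d) a * PowerSeries.C (adj d) +
        PowerSeries.map (emb d) b)) * psi (PowerSeries.map (emb d) a * PowerSeries.C (adj d) +
        PowerSeries.map (emb d) b) q)) i j)]
    refine Finset.sum_congr rfl fun p _ => ?_
    rw [map_mul, psi, map_sum, Finset.mul_sum, cf_sum, sumR_eq]
    refine Finset.sum_congr rfl fun m _ => ?_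
    by_cases h5 : (m + 1) ∣ (n - p + 1)
    · rw [if_pos h5, if_pos (Nat.mod_eq_zero_of_dvd h5), map_zsmul, forget_adams, forget_coeff,
        mul_smul_comm, cf_zsmul, cf_mul_adams]
      rfl
    · rw [if_neg h5, if_neg (fun h6 => h5 (Nat.dvd_of_mod_eq_zero h6)), map_zero, mul_zero,
        cf_zero]
  · rw [← hM, h1, if_neg (Nat.succ_ne_zero n), map_zero]
  · rw [← hM, h2]
    by_cases h3 : n = 0
    · subst h3
      rw [if_pos rfl, if_pos rfl, map_neg, taut, map_sum]
      congr 1
      simp [ex, aug_single]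
    · rw [if_neg h3, if_neg (by omega), map_zero]

end

/-- The dimension of the component of degree nine of the free alternative algebra on four
generators is at least `4 ^ 9`. -/
lemma aug_altClass (k : Type u) [Field k] (d n : ℕ) :
    ((d ^ (n + 1) : ℕ) : ℤ) ≤ aug d (coeff (n + 1) (altClass k d)) := by
  rw [altClass, PowerSeries.coeff_mk, map_sum]
  simp only [aug_single]
  rw [← Nat.cast_sum]
  exact_mod_cast pow_le_sum_altWeight (k := k) (d := d) n

theorem main (k : Type u) [Field k] (a b : GrCh (GLWt 4)) (h : IsShangPair 4 a b) :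
    altClass k 4 ≠ a := by
  rintro rfl
  have h1 := (sys_of_pair h).nine
  have h2 := aug_altClass k 4 8
  rw [h1] at h2
  norm_num at h2

end Pool.Agent.N890.ABG
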