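import Pool.Agent.N890.ABG.Main
import Pool.Agent.N890.ABG.Exist

/-!
# The character formula for free alternative algebras fails: final form
-/

set_option autoImplicit false

namespace Pool.Agent.N890.ABG

open PowerSeries Module

universe u

/-- For `dim V = 4` the component of degree nine of `a(V)` has dimension `261176`. -/
theorem dim_nine {a b : GrCh (GLWt 4)} (h : IsShangPair 4 a b) :
    aug 4 (coeff 9 a) = 261176 := (sys_of_pair h).nine

theorem dim_alt_nine (k : Type u) [Field k] :
    262144 ≤ aug 4 (coeff 9 (altClass k 4)) := by
  have h2 := aug_altClass k 4 8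
  norm_num at h2
  exact h2

end Pool.Agent.N890.ABG
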