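import Pool.Agent.N890.ABG.Defs

/-!
# The recursion for the predicted dimensions
-/

set_option autoImplicit false

namespace Pool.Agent.N890.ABG

open PowerSeries

/-! ### Computable sums -/

/-- `∑ k < n, f k`, in computable form. -/
def sumR : ℕ → (ℕ → ℤ) → ℤ
  | 0, _ => 0
  | n + 1, f => sumR n f + f n

lemma sumR_eq (n : ℕ) (f : ℕ → ℤ) : sumR n f = ∑ k ∈ Finset.range n, f k := by
  induction n with
  | zero => rfl
  | succ n ih => rw [sumR, ih, Finset.sum_range_succ]

/-- The coefficient of `e^(i, j)` in `x ψ_k(ad)`, for `x` with coefficients `u`. -/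
def opT (u : ℤ → ℤ → ℤ) (k i j : ℤ) : ℤ :=
  2 * u i j + u (i - k) j + u i (j - k) + u (i - k) (j - k) + u (i + k) j + u i (j + k) +
    u (i + k) (j + k)

/-- The right side of the recursion. -/
def rhs (A B : ℕ → ℤ) (u : ℕ → ℤ → ℤ → ℤ) (n : ℕ) (i j : ℤ) : ℤ :=
  - sumR (n + 1) fun p => sumR (n - p + 1) fun m =>
    if (n - p + 1) % (m + 1) = 0 then
      ((m + 1 : ℕ) : ℤ) * (A (m + 1) * opT (u p) (((n - p + 1) / (m + 1) : ℕ) : ℤ) i j +
        B (m + 1) * u p i j) else 0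

/-- The coefficient of `e^(i, j)` in the product with the Weyl denominator. -/
def opM (u : ℤ → ℤ → ℤ) (i j : ℤ) : ℤ :=
  u i j - u (i + 1) j - u i (j + 1) + u (i + 2) (j + 1) + u (i + 1) (j + 2) - u (i + 2) (j + 2)

/-- Removing the values beyond `n`. -/
def trunc (A : ℕ → ℤ) (n m : ℕ) : ℤ := if m ≤ n then A m else 0

lemma trunc_of_le (A : ℕ → ℤ) {n m : ℕ} (h : m ≤ n) : trunc A n m = A m := if_pos h

lemma rhs_trunc (A B : ℕ → ℤ) (u : ℕ → ℤ → ℤ → ℤ) (n : ℕ) (i j : ℤ) :
    rhs A B u n i j = rhs (trunc A n) (trunc B n) u n i j -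
      ((n + 1 : ℕ) : ℤ) * (A (n + 1) * opT (u 0) 1 i j + B (n + 1) * u 0 i j) := by
  have e : ∀ A B : ℕ → ℤ, rhs A B u n i j =
      - ((∑ p ∈ Finset.range n, ∑ m ∈ Finset.range (n - (p + 1) + 1),
        if (n - (p + 1) + 1) % (m + 1) = 0 then
          ((m + 1 : ℕ) : ℤ) *
            (A (m + 1) * opT (u (p + 1)) (((n - (p + 1) + 1) / (m + 1) : ℕ) : ℤ) i j +
              B (m + 1) * u (p + 1) i j) else 0) +
        ((∑ m ∈ Finset.range n, if (n + 1) % (m + 1) = 0 then
          ((m + 1 : ℕ) : ℤ) * (A (m + 1) * opT (u 0) (((n + 1) / (m + 1) : ℕ) : ℤ) i j +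
            B (m + 1) * u 0 i j) else 0) +
          ((n + 1 : ℕ) : ℤ) * (A (n + 1) * opT (u 0) 1 i j + B (n + 1) * u 0 i j))) := by
    intro A B
    simp only [rhs, sumR_eq]
    rw [Finset.sum_range_succ']
    simp only [Nat.sub_zero]
    rw [Finset.sum_range_succ _ n, Nat.mod_self, if_pos rfl, Nat.div_self (Nat.succ_pos n)]
    simp
  rw [e, e]
  have h1 : trunc A n (n + 1) = 0 := by rw [trunc, if_neg (by omega)]
  have h2 : trunc B n (n + 1) = 0 := by rw [trunc, if_neg (by omega)]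
  rw [h1, h2]
  have h3 : (∑ p ∈ Finset.range n, ∑ m ∈ Finset.range (n - (p + 1) + 1),
        if (n - (p + 1) + 1) % (m + 1) = 0 then
          ((m + 1 : ℕ) : ℤ) *
            (A (m + 1) * opT (u (p + 1)) (((n - (p + 1) + 1) / (m + 1) : ℕ) : ℤ) i j +
              B (m + 1) * u (p + 1) i j) else 0) =
      (∑ p ∈ Finset.range n, ∑ m ∈ Finset.range (n - (p + 1) + 1),
        if (n - (p + 1) + 1) % (m + 1) = 0 then
          ((m + 1 : ℕ) : ℤ) *
            (trunc A n (m + 1) * opT (u (p + 1)) (((n - (p + 1) + 1) / (m + 1) : ℕ) : ℤ) i j +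
              trunc B n (m + 1) * u (p + 1) i j) else 0) := by
    refine Finset.sum_congr rfl fun p hp => Finset.sum_congr rfl fun m hm => ?_
    rw [Finset.mem_range] at hp hm
    rw [trunc_of_le A (by omega), trunc_of_le B (by omega)]
  have h4 : (∑ m ∈ Finset.range n, if (n + 1) % (m + 1) = 0 then
          ((m + 1 : ℕ) : ℤ) * (A (m + 1) * opT (u 0) (((n + 1) / (m + 1) : ℕ) : ℤ) i j +
            B (m + 1) * u 0 i j) else 0) =
      (∑ m ∈ Finset.range n, if (n + 1) % (m + 1) = 0 then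
          ((m + 1 : ℕ) : ℤ) * (trunc A n (m + 1) * opT (u 0) (((n + 1) / (m + 1) : ℕ) : ℤ) i j +
            trunc B n (m + 1) * u 0 i j) else 0) := by
    refine Finset.sum_congr rfl fun m hm => ?_
    rw [Finset.mem_range] at hm
    rw [trunc_of_le A (by omega), trunc_of_le B (by omega)]
  rw [h3, h4]
  ring

lemma rhs_congr {A B A' B' : ℕ → ℤ} {u u' : ℕ → ℤ → ℤ → ℤ} {n : ℕ}
    (hA : ∀ m ≤ n, A (m + 1) = A' (m + 1)) (hB : ∀ m ≤ n, B (m + 1) = B' (m + 1))
    (hu : ∀ m ≤ n, u m = u' m) (i j : ℤ) : rhs A B u n i j = rhs A' B' u' n i j := by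
  simp only [rhs, sumR_eq]
  congr 1
  refine Finset.sum_congr rfl fun p hp => Finset.sum_congr rfl fun m hm => ?_
  rw [Finset.mem_range] at hp hm
  rw [hA m (by omega), hB m (by omega), hu p (by omega)]

lemma opT_eq_zero {u : ℤ → ℤ → ℤ} {p N k : ℕ} (hk : p + k ≤ N)
    (hu : ∀ i j : ℤ, (p : ℤ) < |i| ∨ (p : ℤ) < |j| → u i j = 0) (i j : ℤ)
    (h : (N : ℤ) < |i| ∨ (N : ℤ) < |j|) : opT u k i j = 0 := by
  have hk' : (p : ℤ) + k ≤ N := by exact_mod_cast hk
  have hi : ∀ e : ℤ, |e| ≤ k → (N : ℤ) < |i| → (p : ℤ) < |i + e| := by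
    intro e he h1
    have := abs_sub_abs_le_abs_sub i (-e)
    rw [abs_neg, sub_neg_eq_add] at this
    linarith
  have hj : ∀ e : ℤ, |e| ≤ k → (N : ℤ) < |j| → (p : ℤ) < |j + e| := by
    intro e he h1
    have := abs_sub_abs_le_abs_sub j (-e)
    rw [abs_neg, sub_neg_eq_add] at this
    linarith
  have ha : |(k : ℤ)| ≤ k := by rw [abs_of_nonneg (Int.natCast_nonneg k)]
  have hb : |-(k : ℤ)| ≤ k := by rw [abs_neg]; exact ha
  have hc : |(0 : ℤ)| ≤ k := by rw [abs_zero]; exact Int.natCast_nonneg k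
  have key : ∀ e f : ℤ, |e| ≤ k → |f| ≤ k → u (i + e) (j + f) = 0 := by
    intro e f he hf
    rcases h with h | h
    · exact hu _ _ (Or.inl (hi e he h))
    · exact hu _ _ (Or.inr (hj f hf h))
  have k1 := key 0 0 hc hc
  have k2 := key (-k) 0 hb hc
  have k3 := key 0 (-k) hc hb
  have k4 := key (-k) (-k) hb hb
  have k5 := key k 0 ha hc
  have k6 := key 0 k hc ha
  have k7 := key k k ha ha
  simp only [add_zero, ← sub_eq_add_neg] at k1 k2 k3 k4 k5 k6 k7
  rw [opT, k1, k2, k3, k4, k5, k6, k7]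
  norm_num

lemma supp {A B : ℕ → ℤ} {u : ℕ → ℤ → ℤ → ℤ}
    (h0 : ∀ i j, u 0 i j = if i = 0 ∧ j = 0 then 1 else 0)
    (hrec : ∀ (n : ℕ) (i j : ℤ), ((n : ℤ) + 1) * u (n + 1) i j = rhs A B u n i j) (N : ℕ) :
    ∀ i j : ℤ, (N : ℤ) < |i| ∨ (N : ℤ) < |j| → u N i j = 0 := by
  induction N using Nat.strong_induction_on with
  | _ N ih =>
    intro i j h
    rcases N with _ | n
    · rw [h0, if_neg]
      rintro ⟨rfl, rfl⟩
      simp at h
    · have h1 := hrec n i j
      have h2 : rhs A B u n i j = 0 := by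
        simp only [rhs, sumR_eq]
        rw [neg_eq_zero]
        refine Finset.sum_eq_zero fun p hp => Finset.sum_eq_zero fun m hm => ?_
        rw [Finset.mem_range] at hp hm
        split_ifs with h3
        · have h4 : (n - p + 1) / (m + 1) ≤ n - p + 1 := Nat.div_le_self _ _
          rw [opT_eq_zero (p := p) (N := n + 1) (by omega) (ih p (by omega)) i j h]
          have h5 : u p i j = 0 := by
            apply ih p (by omega)
            have h6 : (p : ℤ) < ((n + 1 : ℕ) : ℤ) := by exact_mod_cast hp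
            rcases h with h | h
            · exact Or.inl (h6.trans h)
            · exact Or.inr (h6.trans h)
          rw [h5]
          ring
        · rfl
      rw [h2] at h1
      have h3 : ((n : ℤ) + 1) ≠ 0 := by positivity
      exact (mul_eq_zero.mp h1).resolve_left h3

end Pool.Agent.N890.ABG
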